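import Mathlib
import Pool.Agent.Lib.MP_04ae38_an.Transfer

set_option autoImplicit false

/-!
# Directed Poincaré inequality on the unit cube (MP_04ae38_an)

For every `n` and every Lipschitz `f : [0,1]ⁿ → ℝ` we show `d₁^mono(f) ≤ E ‖∇⁻ f‖₂`, which answers Q1
positively with `c = 1`.

Outline of the proof (files in `Pool/Agent/Lib/MP_04ae38_an/`).

* `Phi`, `Transfer`: it is enough to prove `d₁^mono(F) ≤ (5/2) E ‖∇⁻ F‖₂` for bounded Lipschitz `F` in Gauss space.
* `Dual`: by Hahn-Banach it is enough to bound `E[g F]` by `(5/2) E ‖∇⁻ F‖₂` when `|g| ≤ 1` and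
  `E[g H] ≤ 0` for all monotone `H`.
* `Game`, `Step`, `Directed`, `Iter`: a discrete-time directed heat flow: at each step every coordinate is
  offered an exchangeable Gaussian move; an upward move is accepted or refused by a minimiser, a downward
  move by a maximiser. A reflection coupling of the two games (for the coordinates that are far apart) gives, for
  the resolvent of this flow applied to `g`, a bound `u(x) - u(y) ≤ (5/2) ‖y - x‖₂` for `x ≤ y`, which does not depend
  on the dimension nor on the resolvent parameter.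
* `Flux`, `Expand*`, `Minty`, `Resolvent*`: exchangeability gives a flux identity and an `L²` contraction;
  the limit of small steps is taken with Minty's monotonicity trick.
-/

open MeasureTheory Set

namespace Pool.Agent.Results.MP_04ae38_an.DirectedPoincare

/-- The directed gradient `∇⁻ f (x)`: the vector of the negative parts `min {∂ᵢ f(x), 0}` of the partial derivatives,
in Euclidean space, so that its norm is the `ℓ²` norm. -/
noncomputable def directedGradient {n : ℕ} (f : (Fin n → ℝ) → ℝ) (x : Fin n → ℝ) :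
    EuclideanSpace ℝ (Fin n) :=
  WithLp.toLp 2 fun i => min (fderiv ℝ f x (Pi.single i 1)) 0

/-- The `L¹` distance to monotonicity on the unit cube: the infimum of `∫_{[0,1]ⁿ} |f - g|` over the functions `g`
that are monotone and integrable on `[0,1]ⁿ = Icc 0 1`. -/
noncomputable def distMono {n : ℕ} (f : (Fin n → ℝ) → ℝ) : ℝ :=
  sInf {r : ℝ | ∃ g : (Fin n → ℝ) → ℝ, MonotoneOn g (Icc 0 1) ∧ IntegrableOn g (Icc 0 1) ∧
    r = ∫ x in Icc 0 1, |f x - g x|}

lemma norm_directedGradient {n : ℕ} (f : (Fin n → ℝ) → ℝ) (x : Fin n → ℝ) :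
    ‖directedGradient f x‖ = MP04ae38.ngrad f x := by
  unfold directedGradient MP04ae38.ngrad MP04ae38.dd
  rw [EuclideanSpace.norm_eq]
  congr 1
  apply Finset.sum_congr rfl
  intro i _
  simp only [Real.norm_eq_abs, sq_abs]
  rcases le_total (fderiv ℝ f x (Pi.single i 1)) 0 with h | h
  · rw [min_eq_left h, max_eq_left (by linarith)]; ring
  · rw [min_eq_right h, max_eq_right (by linarith)]

/-- **Directed Poincaré inequality.** A function that is Lipschitz on the unit cube is differentiable almost everywhere
there, `‖∇⁻ f‖₂` is integrable, and the `L¹` distance of `f` to monotonicity is at most `E ‖∇⁻ f‖₂`. -/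
theorem result (n : ℕ) (f : (Fin n → ℝ) → ℝ) (K : NNReal)
    (hf : LipschitzOnWith K f (Icc (0 : Fin n → ℝ) 1)) :
    (∀ᵐ x ∂(volume.restrict (Icc (0 : Fin n → ℝ) 1)), DifferentiableAt ℝ f x) ∧
    IntegrableOn (fun x => ‖directedGradient f x‖) (Icc (0 : Fin n → ℝ) 1) ∧
    distMono f ≤ ∫ x in Icc (0 : Fin n → ℝ) 1, ‖directedGradient f x‖ := by
  refine ⟨MP04ae38.ae_differentiable_cube f K hf, ?_, ?_⟩
  · simp_rw [norm_directedGradient]
    exact MP04ae38.integrable_ngrad_cube f K hf
  · simp_rw [norm_directedGradient]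
    apply le_of_forall_pos_le_add
    intro ε hε
    obtain ⟨h, mh, hmono, ⟨B, hB⟩, hle⟩ := MP04ae38.cube_directed f K hf ε hε
    refine le_trans (csInf_le ?_ ⟨h, hmono, ?_, rfl⟩) hle
    · refine ⟨0, ?_⟩
      rintro r ⟨g, _, _, rfl⟩
      exact integral_nonneg (fun x => abs_nonneg _)
    · have : IsFiniteMeasure (volume.restrict (Icc (0 : Fin n → ℝ) 1)) :=
        ⟨by rw [Measure.restrict_apply_univ]; exact isCompact_Icc.measure_lt_top⟩
      exact Integrable.of_bound mh.aestronglyMeasurable B (Filter.Eventually.of_forall hB)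

end Pool.Agent.Results.MP_04ae38_an.DirectedPoincare
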